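import Pool.Agent.Helper10.GO.GoalsC

/-!
# Project GO, packet LLIP: the section for the lower bound
-/

set_option autoImplicit false

open MvPolynomial Filter Topology

noncomputable section

namespace Pool.Agent.Helper86.GO

open Pool.Agent.Helper10.GO Pool.Agent.Helper80.HD Pool.Agent.Helper80.AD

theorem llip (hTRN : S_TRN) (hDIF : S_DIF) (hNEAR : S_NEAR) (hISO : S_ISO) : S_LLIP := by
  classical
  intro K _ _ _ N δ d Γ ξ D hG hV
  obtain ⟨-, -, hne, hiso⟩ := hISO K N δ Γ ξ hG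
  -- the constants
  set SD : ℝ := ∑ i, D 1 i with hSD
  have hSD0 : 0 ≤ SD := Finset.sum_nonneg fun i _ => hV.nn 1 i
  have hfac : (0 : ℝ) < (d.factorial : ℝ) := by exact_mod_cast Nat.factorial_pos d
  set κ : ℝ := (d.factorial : ℝ) * SD with hκ
  obtain ⟨M₀, hM₀⟩ := exists_nat_gt ((N : ℝ) ^ 2 * (κ + 1))
  set M : ℕ := M₀ + 1 with hM
  have hMgt : (N : ℝ) ^ 2 * ((1 : ℕ) : ℝ) * (κ + 1) < (M : ℝ) := by
    rw [hM]
    push_cast
    linarith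
  have hM1 : 1 ≤ M := by omega
  have hMr : (1 : ℝ) ≤ (M : ℝ) := by exact_mod_cast hM1
  -- the second differences
  obtain ⟨I, hI, hHF, -⟩ := hTRN K ℂ 3 N ![ξ 1, ξ 0, ξ 1]
  obtain ⟨B, hB⟩ := hDIF K 3 N 2 I hI
  have hHF' : HF I = hf K ![ξ 1, ξ 0, ξ 1] := funext hHF
  have hconv : ∀ β : Fin 3 → ℕ, (∀ i, B ≤ β i) → 0 ≤ fds [1, 1] (hf K ![ξ 1, ξ 0, ξ 1]) β := by
    intro β hβ
    rw [← hHF']
    exact hB [1, 1] (by simp) β hβ
  -- the dimensions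
  have hlim := hV.lim 1 M (2 * M) hM1 (by omega)
  have hvp : vp d (D 1) (M : ℝ) ((2 * M : ℕ) : ℝ) ≤ (2 * (M : ℝ)) ^ d * SD := by
    unfold vp
    rw [hSD, Finset.mul_sum]
    refine Finset.sum_le_sum fun i _ => ?_
    have h1 : (M : ℝ) ^ (d - (i : ℕ)) ≤ (2 * (M : ℝ)) ^ (d - (i : ℕ)) :=
      pow_le_pow_left₀ (by linarith) (by linarith) _
    have h2 : (2 * (M : ℝ)) ^ (d - (i : ℕ)) * (2 * (M : ℝ)) ^ (i : ℕ) = (2 * (M : ℝ)) ^ d := by
      rw [← pow_add]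
      congr 1
      have := i.2
      omega
    push_cast
    calc D 1 i * (M : ℝ) ^ (d - (i : ℕ)) * (2 * (M : ℝ)) ^ (i : ℕ)
        ≤ D 1 i * (2 * (M : ℝ)) ^ (d - (i : ℕ)) * (2 * (M : ℝ)) ^ (i : ℕ) := by
          have h3 := hV.nn 1 i
          have h4 : (0 : ℝ) ≤ (2 * (M : ℝ)) ^ (i : ℕ) := by positivity
          exact mul_le_mul_of_nonneg_right (mul_le_mul_of_nonneg_left h1 h3) h4
      _ = (2 * (M : ℝ)) ^ d * D 1 i := by
          rw [mul_assoc, h2, mul_comm]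
  have hδ : (0 : ℝ) < (2 * (M : ℝ)) ^ d / (d.factorial : ℝ) := by positivity
  have hev : ∀ᶠ t : ℕ in atTop,
      (Module.finrank K (sp K (ξ 0) ^ (M * t) * sp K (ξ 1) ^ (2 * M * t) : Submodule K ℂ) : ℝ) /
        (t : ℝ) ^ d < vp d (D 1) (M : ℝ) ((2 * M : ℕ) : ℝ) + (2 * (M : ℝ)) ^ d / (d.factorial : ℝ) :=
    hlim.eventually_lt_const (by linarith)
  have hmain : ∀ᶠ t : ℕ in atTop,
      (Module.finrank K (sp K (ξ 1) ^ (M * t) * sp K (ξ 0) ^ (M * t) * sp K (ξ 1) ^ (M * t) :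
        Submodule K ℂ) : ℝ) ≤
        (κ + 1) * Module.finrank K (sp K (ξ 1) ^ (M * t) * sp K (ξ 1) ^ (M * t) :
          Submodule K ℂ) := by
    filter_upwards [hev, eventually_ge_atTop 1] with t ht ht1
    have ht0 : (0 : ℝ) < (t : ℝ) ^ d := by
      have : (0 : ℝ) < (t : ℝ) := by exact_mod_cast ht1
      positivity
    have e1 : (sp K (ξ 1) ^ (M * t) * sp K (ξ 0) ^ (M * t) * sp K (ξ 1) ^ (M * t) :
        Submodule K ℂ) = sp K (ξ 0) ^ (M * t) * sp K (ξ 1) ^ (2 * M * t) := by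
      rw [mul_comm (sp K (ξ 1) ^ (M * t)) (sp K (ξ 0) ^ (M * t)), mul_assoc, ← pow_add]
      congr 2
      ring
    have e2 : (sp K (ξ 1) ^ (M * t) * sp K (ξ 1) ^ (M * t) : Submodule K ℂ) =
        sp K (ξ 1) ^ (2 * M * t) * sp K (ξ (1 + 0)) ^ 0 := by
      rw [pow_zero, mul_one, ← pow_add]
      congr 1
      ring
    have e3 := hiso 1 0 (2 * M * t) 0
    have e4 := hV.low (2 * M * t)
    rw [e1, e2, e3, pow_zero, mul_one]
    have h5 : (Module.finrank K (sp K (ξ 0) ^ (M * t) * sp K (ξ 1) ^ (2 * M * t) :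
        Submodule K ℂ) : ℝ) ≤ ((2 * (M : ℝ)) ^ d * SD + (2 * (M : ℝ)) ^ d / (d.factorial : ℝ)) *
          (t : ℝ) ^ d := by
      rw [div_lt_iff₀ ht0] at ht
      refine ht.le.trans (mul_le_mul_of_nonneg_right (by linarith) ht0.le)
    have h6 : ((2 * (M : ℝ)) ^ d * SD + (2 * (M : ℝ)) ^ d / (d.factorial : ℝ)) * (t : ℝ) ^ d =
        (κ + 1) * (((2 * M * t : ℕ) : ℝ) ^ d / (d.factorial : ℝ)) := by
      rw [hκ]
      push_cast
      rw [mul_pow (2 * (M : ℝ)) (t : ℝ) d]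
      field_simp
    rw [h6] at h5
    have hκ0 : 0 ≤ κ + 1 := by positivity
    exact h5.trans (mul_le_mul_of_nonneg_left e4 hκ0)
  obtain ⟨t, ht, s, hs, hmem⟩ := hNEAR K ℂ N (ξ 1) (ξ 0) (ξ 1) B (hne 1) (hne 0) (hne 1) hconv
    M M 1 M (κ + 1) hM1 le_rfl hM1 hMgt hmain (2 * B + 1)
  refine ⟨M * t, t, B, M * t, by omega, by omega, s, hs, fun i => ?_⟩
  have h7 := hmem i
  rw [one_mul] at h7
  exact h7

end Pool.Agent.Helper86.GO
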